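import Pool.Agent.H366R3.SC.Stmts

set_option autoImplicit false

namespace Pool.Agent.H87R3.SC

open Finset Pool.Agent.H366R3.SC
open Pool.Agent.H126R2.CDC (MGraph)

variable {V E : Type} [Fintype V] [DecidableEq V] [Fintype E] [DecidableEq E]

/-- characteristic function modulo 2 -/
def chi (A : Finset E) (e : E) : ZMod 2 := if e ∈ A then 1 else 0

theorem chi_symm (A B : Finset E) (e : E) : chi (symmDiff A B) e = chi A e + chi B e := by
  unfold chi
  have h := Finset.mem_symmDiff (s := A) (t := B) (a := e)
  have h11 : (1 : ZMod 2) + 1 = 0 := by decide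
  by_cases h1 : e ∈ A <;> by_cases h2 : e ∈ B <;> simp [h, h1, h2, h11]

/-- the parity of `|A ∩ X|` -/
def par (X A : Finset E) : ZMod 2 := ((A ∩ X).card : ZMod 2)

theorem par_eq (X A : Finset E) : par X A = ∑ e ∈ X, chi A e := by
  unfold par chi
  rw [Finset.sum_boole, Finset.inter_comm, Finset.filter_mem_eq_inter]

theorem par_symm (X A B : Finset E) : par X (symmDiff A B) = par X A + par X B := by
  rw [par_eq, par_eq, par_eq, ← Finset.sum_add_distrib]
  exact Finset.sum_congr rfl fun e _ => chi_symm A B e

theorem par_even (X A : Finset E) : par X A = 0 ↔ Even (A ∩ X).card := by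
  unfold par
  exact ZMod.natCast_eq_zero_iff_even

/-- indicator of equality -/
def dl (v w : V) : ZMod 2 := if w = v then 1 else 0

theorem par_single (G : MGraph V E) (e : E) (x y w : V) (hxy : x ≠ y) (he : G.ends e = s(x, y)) :
    par (inc G w) {e} = dl x w + dl y w := by
  rw [par_eq]
  have h1 : ∑ e' ∈ inc G w, chi {e} e' = if e ∈ inc G w then 1 else 0 := by
    unfold chi
    simp only [Finset.mem_singleton]
    rw [Finset.sum_ite_eq']
  rw [h1]
  have h2 : e ∈ inc G w ↔ w = x ∨ w = y := by
    unfold inc
    rw [Finset.mem_filter, he, Sym2.mem_iff]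
    simp
  unfold dl
  by_cases ha : w = x
  · have hb : w ≠ y := fun h => hxy (ha ▸ h)
    rw [if_pos (h2.2 (Or.inl ha)), if_pos ha, if_neg hb, add_zero]
  · by_cases hb : w = y
    · rw [if_pos (h2.2 (Or.inr hb)), if_neg ha, if_pos hb, zero_add]
    · rw [if_neg (fun h => (h2.1 h).elim ha hb), if_neg ha, if_neg hb, add_zero]

theorem two_cancel (a : ZMod 2) : a + a = 0 := by
  revert a
  decide

theorem t : T1 := by
  intro V E _ _ _ _ G hG hEC K hK
  by_cases hV : Nonempty V
  swap
  · rw [not_nonempty_iff] at hV
    refine ⟨∅, ?_⟩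
    have hE : IsEmpty E := by
      constructor
      intro e
      induction h : G.ends e using Sym2.ind with
      | _ x y => exact hV.elim x
    rw [Finset.eq_empty_of_isEmpty K, Finset.eq_empty_of_isEmpty (cut G ∅)]
  obtain ⟨v0⟩ := hV
  have hR : ∀ v : V, ∃ A : Finset E, ∀ w, par (inc G w) A = dl v0 w + dl v w := by
    classical
    set S0 : Finset V := univ.filter (fun v => ∃ A : Finset E, ∀ w,
      par (inc G w) A = dl v0 w + dl v w) with hS0
    have h0 : v0 ∈ S0 := by
      rw [hS0, Finset.mem_filter]
      refine ⟨Finset.mem_univ _, ∅, fun w => ?_⟩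
      rw [two_cancel]
      simp [par]
    have hall : S0 = univ := by
      by_contra hne
      have h1 := hEC S0 ⟨v0, h0⟩ hne
      obtain ⟨e, he⟩ := Finset.card_pos.1 (by omega : 0 < (cut G S0).card)
      unfold cut at he
      rw [Finset.mem_filter] at he
      obtain ⟨-, ⟨x, hx, hxe⟩, y, hy, hye⟩ := he
      have hxy : x ≠ y := fun h => hy (h ▸ hx)
      have hee : G.ends e = s(x, y) := (Sym2.mem_and_mem_iff hxy).1 ⟨hxe, hye⟩
      apply hy
      rw [hS0, Finset.mem_filter] at hx ⊢
      obtain ⟨-, A, hA⟩ := hx
      refine ⟨Finset.mem_univ _, symmDiff A {e}, fun w => ?_⟩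
      rw [par_symm, hA, par_single G e x y w hxy hee]
      have := two_cancel (dl x w)
      linear_combination this
    intro v
    have hv : v ∈ S0 := by rw [hall]; exact Finset.mem_univ v
    rw [hS0, Finset.mem_filter] at hv
    exact hv.2
  choose A hA using hR
  have key : ∀ (e : E) (x y : V), x ≠ y → G.ends e = s(x, y) →
      chi K e = par K (A x) + par K (A y) := by
    intro e x y hxy hee
    have h1 : Ev G (symmDiff (symmDiff (A x) {e}) (A y)) := by
      intro w
      rw [← par_even, par_symm, par_symm, hA, hA, par_single G e x y w hxy hee]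
      have a := two_cancel (dl x w)
      have b := two_cancel (dl y w)
      have c := two_cancel (dl v0 w)
      linear_combination a + b + c
    have h2 := hK _ h1
    rw [← par_even, par_symm, par_symm] at h2
    have h3 : par K {e} = chi K e := by
      rw [par_eq]
      unfold chi
      simp only [Finset.mem_singleton]
      rw [Finset.sum_ite_eq']
    rw [h3] at h2
    have a := two_cancel (par K (A x))
    have b := two_cancel (par K (A y))
    linear_combination h2 - a - b
  refine ⟨univ.filter (fun v => par K (A v) = 1), ?_⟩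
  have h01 : ∀ a : ZMod 2, a = 0 ∨ a = 1 := by decide
  ext e
  induction h : G.ends e using Sym2.ind with
  | _ x y =>
    have hxy : x ≠ y := by
      intro hh
      apply hG.loopless e
      rw [h, hh]
      exact Sym2.mk_isDiag_iff.2 rfl
    have hk := key e x y hxy h
    have hmem : e ∈ K ↔ chi K e = 1 := by
      unfold chi
      split_ifs with h5 <;> simp [h5]
    rw [hmem, hk]
    unfold cut
    simp only [Finset.mem_filter, Finset.mem_univ, true_and, h, Sym2.mem_iff]
    rcases h01 (par K (A x)) with ha | ha <;> rcases h01 (par K (A y)) with hb | hb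
    · rw [ha, hb]
      constructor
      · intro h6
        exact absurd h6 (by decide)
      · rintro ⟨⟨z, hz, h6 | h6⟩, -⟩
        · rw [h6, ha] at hz
          exact absurd hz (by decide)
        · rw [h6, hb] at hz
          exact absurd hz (by decide)
    · rw [ha, hb]
      refine ⟨fun _ => ⟨⟨y, hb, Or.inr rfl⟩, x, ?_, Or.inl rfl⟩, fun _ => by decide⟩
      rw [ha]
      decide
    · rw [ha, hb]
      refine ⟨fun _ => ⟨⟨x, ha, Or.inl rfl⟩, y, ?_, Or.inr rfl⟩, fun _ => by decide⟩
      rw [hb]
      decide
    · rw [ha, hb]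
      constructor
      · intro h6
        exact absurd h6 (by decide)
      · rintro ⟨-, z, hz, h6 | h6⟩
        · rw [h6, ha] at hz
          exact absurd rfl hz
        · rw [h6, hb] at hz
          exact absurd rfl hz

end Pool.Agent.H87R3.SC
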